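import Mathlib
import Pool.Agent.K4H9.ST.Main

set_option autoImplicit false

/-!
# Vojta's conjecture with truncated counting function: the error term cannot be smaller than
# `√h / log h`, in all dimensions, over all number fields, off any closed subset

`K` is a number field, `D = {F = 0}` a divisor of degree `d` of `ℙ^n` over `K` which contains `n + 2`
hyperplanes in general position (for instance the sum of these hyperplanes, or the sum of any number
`≥ n + 2` of hyperplanes in general position), so that `h_{K_X + D} = (d - n - 1) h`. The set `S` of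
primes is arbitrary, `Y = {G = 0}` any hypersurface, over any extension of `K`.

There are points `P ∈ ℙ^n(K)` of arbitrarily large height, off `D` and off `Y`, with

  `N_S^{(1)}(D, P) ≤ h_{K_X + D}(P) - (1 / 40) √h(P) / log h(P)`.

So the term `ε h_H(P)` of the conjecture cannot be replaced by `o(√h_H(P) / log h_H(P))`, even if the
closed subset `Y` is as large as we like. For `n = 1`, `K = ℚ`, `d = 3` this is the theorem of Stewart
and Tijdeman on the abc conjecture (up to the constant).
-/

namespace Pool.Agent.Results.MP_9ec3f0_nt.ErrorTermAllDimensions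

open NumberField IsDedekindDomain

variable {K : Type} [Field K] [NumberField K] {n : ℕ}

/-- The linear form with coefficients `l`. -/
noncomputable def linearForm {K : Type} [Field K] {n : ℕ} (l : Fin (n + 1) → K) :
    MvPolynomial (Fin (n + 1)) K :=
  ∑ j, MvPolynomial.C (l j) * MvPolynomial.X j

/-- The local height at the prime `v` of the point with homogeneous coordinates `x`, relative to
the divisor `F = 0`, where `F` is a form of degree `d` (with respect to the closure of this divisor
in the projective space over the local ring of `v`). -/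
noncomputable def weil (v : HeightOneSpectrum (𝓞 K)) (F : MvPolynomial (Fin (n + 1)) K) (d : ℕ)
    (x : Fin (n + 1) → K) : ℝ :=
  Real.log ((⨆ m, FinitePlace.mk v (F.coeff m)) * (⨆ j, FinitePlace.mk v (x j)) ^ d /
    FinitePlace.mk v (MvPolynomial.eval x F))

/-- The truncated counting function `N_S^{(1)}(D, P)` of the divisor `D = {F = 0}` at the point
with homogeneous coordinates `x`: the sum of `log N(v)` over the primes `v` outside `S` at which the
local height is positive. -/
noncomputable def truncated (S : Set (HeightOneSpectrum (𝓞 K)))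
    (F : MvPolynomial (Fin (n + 1)) K) (d : ℕ) (x : Fin (n + 1) → K) : ℝ :=
  ∑ᶠ v ∈ {v : HeightOneSpectrum (𝓞 K) | v ∉ S ∧ 0 < weil v F d x},
    Real.log (Ideal.absNorm v.asIdeal : ℝ)

/-- Let `n ≥ 1` and let `D = {F = 0}` be any divisor of degree `d` of `ℙ^n` over a number field `K`
which contains `n + 2` hyperplanes in general position, so that `h_{K_X + D} = (d - n - 1) h`. Let `S`
be any set of primes and `G` any nonzero form with coefficients in any extension of `K`. Then there
are points `P ∈ ℙ^n(K)` of arbitrarily large height, with `F(P) ≠ 0` and `G(P) ≠ 0`, such that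
`N_S^{(1)}(D, P) ≤ (d - n - 1) h(P) - (1 / 40) √h(P) / log h(P)`. -/
theorem result (K : Type) [Field K] [NumberField K] (S : Set (HeightOneSpectrum (𝓞 K))) (n : ℕ)
    (hn : 1 ≤ n) (L : Fin (n + 2) → Fin (n + 1) → K)
    (hL : ∀ I : Finset (Fin (n + 2)), I.card = n + 1 → LinearIndependent K (fun i : I => L i))
    (F : MvPolynomial (Fin (n + 1)) K) (d : ℕ) (hF : F ≠ 0) (hFd : F.IsHomogeneous d)
    (hLF : (∏ i, linearForm (L i)) ∣ F)
    (Ω : Type) [Field Ω] [Algebra K Ω] (G : MvPolynomial (Fin (n + 1)) Ω) (δ : ℕ) (hG : G ≠ 0)
    (hGδ : G.IsHomogeneous δ) (M : ℝ) :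
    ∃ x : Fin (n + 1) → K, MvPolynomial.eval x F ≠ 0 ∧
      MvPolynomial.eval (fun j => algebraMap K Ω (x j)) G ≠ 0 ∧ M ≤ Height.logHeight x ∧
      truncated S F d x ≤ ((d : ℝ) - n - 1) * Height.logHeight x -
        1 / 40 * (Real.sqrt (Height.logHeight x) / Real.log (Height.logHeight x)) := by
  classical
  obtain ⟨x, hFx, hGx, hM, hfin, hsum⟩ := Pool.Agent.K4H9.ST.main_st hn L hL F hF hFd hLF G hG
    hGδ M
  refine ⟨x, hFx, hGx, hM, ?_⟩
  have hsub : ∀ v : HeightOneSpectrum (𝓞 K), 0 < weil v F d x →
      Pool.Agent.W231.H.Bad v F d x := by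
    intro v hv
    by_contra hcon
    unfold Pool.Agent.W231.H.Bad at hcon
    push Not at hcon
    refine absurd hv (not_lt.2 ?_)
    have h0 : 0 < FinitePlace.mk v (MvPolynomial.eval x F) := FinitePlace.pos_iff.2 hFx
    refine Real.log_nonpos ?_ ?_
    · refine div_nonneg (mul_nonneg ?_ (pow_nonneg ?_ _)) h0.le
      · exact Real.iSup_nonneg fun j => apply_nonneg _ _
      · exact Real.iSup_nonneg fun j => apply_nonneg _ _
    · rw [div_le_one h0]
      exact hcon
  have hfin' : {v : HeightOneSpectrum (𝓞 K) | v ∉ S ∧ 0 < weil v F d x}.Finite :=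
    hfin.subset fun v hv => hsub v hv.2
  have htr : truncated S F d x = ∑ v ∈ hfin'.toFinset, Pool.Agent.W231.V.ell v := by
    unfold truncated
    rw [finsum_mem_eq_finite_toFinset_sum _ hfin']
    rfl
  rw [htr]
  exact hsum hfin'.toFinset fun v hv => hsub v (hfin'.mem_toFinset.1 hv).2

end Pool.Agent.Results.MP_9ec3f0_nt.ErrorTermAllDimensions
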