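import Mathlib
import Pool.Agent.K4H9.PS.Main2

/-!
# Lines in the plane: the exceptions to the truncated inequality lie on the special lines

`D` is the sum of `q ≥ 4` lines of `ℙ²` over `ℚ` in general position (no three through a point), so that
`h_{K_X + D} = (q - 3) h`; `S` is a finite set of primes. A special line is a line through two double
points `L_i ∩ L_j` and `L_k ∩ L_l` of `D`, with `i, j, k, l` different; it meets `D` in only `q - 2`
points.

For every `κ > 1` the number of rational points `P` off `D` and off the special lines, of height at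
most `B`, with

  `N_S^{(1)}(D, P) ≤ (q - κ) h(P) + c`

is at most `C B ^ (2 - η)` for some `η > 0`. The case `κ = 3` is the inequality of the conjecture. For
`1 < κ ≤ 2` the points on the special lines are needed: all but a proportion `C B ^ (-η)` of all the
exceptions of height at most `B` lie on the special lines.
-/

set_option autoImplicit false

namespace Pool.Agent.Results.MP_9ec3f0_nt.ExceptionsOffSpecialLines

open Finset

/-- the value at `x` of the linear form with coefficients `a` -/
def form (a x : Fin 3 → ℤ) : ℤ := ∑ j, a j * x j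

/-- the lines `L i = 0` of the plane are in general position: any three of the linear forms are
linearly independent -/
def GeneralPosition {q : ℕ} (L : Fin q → Fin 3 → ℤ) : Prop :=
  ∀ i j k, i ≠ j → i ≠ k → j ≠ k → (Matrix.of ![L i, L j, L k]).det ≠ 0

/-- the sum of `log p` over the primes `p` outside `S` that divide `a`: for a point `x` with
coprime integer coordinates, `N1 S (∏ i, form (L i) x)` is the truncated counting function
`N_S^{(1)}(D, x)` of the sum `D` of the lines `L i = 0` -/
noncomputable def N1 (S : Finset ℕ) (a : ℤ) : ℝ := ∑ p ∈ a.natAbs.primeFactors \ S, Real.log p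

/-- the height `h(x) = log max |x_j|` of a point with coprime integer coordinates -/
noncomputable def height (x : Fin 3 → ℤ) : ℝ :=
  Real.log ((univ.sup fun j => (x j).natAbs : ℕ) : ℝ)

/-- the rational points off the lines (every point is given by its two vectors of coprime integer
coordinates), of height at most `log B`, at which the truncated counting function is at most
`(q - κ) h + c` -/
def Exceptions {q : ℕ} (L : Fin q → Fin 3 → ℤ) (S : Finset ℕ) (κ c B : ℝ) : Set (Fin 3 → ℤ) :=
  {x | univ.gcd x = 1 ∧ (∀ i, form (L i) x ≠ 0) ∧ height x ≤ Real.log B ∧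
    N1 S (∏ i, form (L i) x) ≤ ((q : ℝ) - κ) * height x + c}

/-- the points on no special line: for different `i, j, k, l` the point `x` is not on the line
through the intersection points of the lines `L i`, `L j` and of the lines `L k`, `L l` -/
def OffSpecialLines {q : ℕ} (L : Fin q → Fin 3 → ℤ) : Set (Fin 3 → ℤ) :=
  {x | ∀ i j k l, i ≠ j → i ≠ k → i ≠ l → j ≠ k → j ≠ l → k ≠ l →
    (Matrix.of ![x, crossProduct (L i) (L j), crossProduct (L k) (L l)]).det ≠ 0}

/-- Let `D` be the sum of `q ≥ 4` lines in general position in the plane over `ℚ`, `S` a finite set of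
primes and `κ > 1`. For every `c` there are `η > 0` and `C` such that at most `C B ^ (2 - η)` rational
points off `D` and off the special lines, of height at most `log B`, satisfy
`N_S^{(1)}(D, P) ≤ (q - κ) h(P) + c`. If `κ ≤ 2` and `c` is large enough, then for some `η > 0` and `C`
these are at most `C B ^ (-η)` times the number of all rational points off `D` of height at most `log B`
which satisfy the inequality. -/
theorem result (q : ℕ) (hq : 4 ≤ q) (L : Fin q → Fin 3 → ℤ) (hL : GeneralPosition L)
    (S : Finset ℕ) (κ : ℝ) (hκ : 1 < κ) :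
    (∀ c : ℝ, ∃ η : ℝ, 0 < η ∧ ∃ C : ℝ, ∀ B : ℝ, 1 ≤ B →
      (Exceptions L S κ c B ∩ OffSpecialLines L).Finite ∧
      ((Exceptions L S κ c B ∩ OffSpecialLines L).ncard : ℝ) ≤ C * B ^ (2 - η)) ∧
    (κ ≤ 2 → ∃ c₀ : ℝ, ∀ c : ℝ, c₀ ≤ c → ∃ η : ℝ, 0 < η ∧ ∃ C : ℝ, ∀ B : ℝ, 1 ≤ B →
      ((Exceptions L S κ c B ∩ OffSpecialLines L).ncard : ℝ) ≤
        C * B ^ (-η) * ((Exceptions L S κ c B).ncard : ℝ)) := by
  refine ⟨fun c => ?_, fun hκ2 => ?_⟩
  · obtain ⟨η, hη, C, -, hC⟩ := Pool.Agent.K4H9.PS.off_main (by omega) hL S hκ c
    exact ⟨η, hη, C, hC⟩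
  · exact Pool.Agent.K4H9.PS.off_ratio hq hL S hκ hκ2

end Pool.Agent.Results.MP_9ec3f0_nt.ExceptionsOffSpecialLines
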