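import Mathlib
import Pool.Agent.K4H9.PN.Main

/-!
# Hyperplanes: the exact number of exceptions to the truncated inequality

`D` is the sum of `q ≥ n + 2` hyperplanes of `ℙ^n` over `ℚ`, `n ≥ 2`, in general position, so that
`h_{K_X + D} = (q - n - 1) h`; `S` is a finite set of primes. For `0 ≤ κ ≤ q` let `E(κ)` be the number of
rational points `P` off `D`, of height at most `B`, with

  `N_S^{(1)}(D, P) ≤ (q - κ) h(P) + c`.

We prove `E(κ) = O(B ^ (e + δ))` where `e = n + 1 - κ` if `κ ≤ 1` and `e = min (n, q - κ)` if `κ ≥ 1`. The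
exponent `e` is attained for `κ ≤ 1`, in every dimension and for any number of hyperplanes. It is also
attained for `κ ≤ 2` if `n = 2`, and for `κ ≥ n` if `q = n + 2`; so the exponent of growth of `E(κ)` is
found for every `κ` when `D` is a sum of four lines in the plane. In particular (`κ = n + 1`) at most
`C B ^ (n + δ)` points of height at most `B` are exceptions to the inequality of the conjecture, whatever
the number of hyperplanes, among the about `B ^ (n + 1)` rational points of height at most `B`.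
-/

set_option autoImplicit false

namespace Pool.Agent.Results.MP_9ec3f0_nt.HyperplanesSharpExponent

open Finset

/-- the value at `x` of the linear form with coefficients `a` -/
def form {n : ℕ} (a x : Fin (n + 1) → ℤ) : ℤ := ∑ j, a j * x j

/-- the hyperplanes `L i = 0` of `ℙ^n` are in general position: any `n + 1` of the linear forms are
linearly independent -/
def GeneralPosition {n q : ℕ} (L : Fin q → Fin (n + 1) → ℤ) : Prop :=
  ∀ s : Fin (n + 1) → Fin q, Function.Injective s → (Matrix.of fun a => L (s a)).det ≠ 0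

/-- the sum of `log p` over the primes `p` outside `S` that divide `a`: for a point `x` with
coprime integer coordinates, `N1 S (∏ i, form (L i) x)` is the truncated counting function
`N_S^{(1)}(D, x)` of the sum `D` of the hyperplanes `L i = 0` -/
noncomputable def N1 (S : Finset ℕ) (a : ℤ) : ℝ := ∑ p ∈ a.natAbs.primeFactors \ S, Real.log p

/-- the height `h(x) = log max |x_j|` of a point with coprime integer coordinates -/
noncomputable def height {n : ℕ} (x : Fin (n + 1) → ℤ) : ℝ :=
  Real.log ((univ.sup fun j => (x j).natAbs : ℕ) : ℝ)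

/-- the rational points off the hyperplanes (every point is given by its two vectors of coprime integer
coordinates), of height at most `log B`, at which the truncated counting function is at most
`(q - κ) h + c` -/
def Exceptions {n q : ℕ} (L : Fin q → Fin (n + 1) → ℤ) (S : Finset ℕ) (κ c B : ℝ) :
    Set (Fin (n + 1) → ℤ) :=
  {x | univ.gcd x = 1 ∧ (∀ i, form (L i) x ≠ 0) ∧ height x ≤ Real.log B ∧
    N1 S (∏ i, form (L i) x) ≤ ((q : ℝ) - κ) * height x + c}

/-- Let `D` be the sum of `q ≥ n + 2` hyperplanes in general position in `ℙ^n` over `ℚ`, `n ≥ 2`, and `S` a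
finite set of primes. For all `0 ≤ κ ≤ q`, all `c` and `δ > 0`, at most
`C B ^ (max (n + 1 - κ, min (n, q - κ)) + δ)` rational points off `D` of height at most `log B` satisfy
`N_S^{(1)}(D, P) ≤ (q - κ) h(P) + c`. If `κ ≤ 1`, or `n = 2` and `κ ≤ 2`, or `q = n + 2` and `κ ≥ n`, and `c`
is large enough, then there are at least `m B ^ max (n + 1 - κ, min (n, q - κ))` such points, for some
`m > 0` and all large `B`. -/
theorem result (n q : ℕ) (hn : 2 ≤ n) (hq : n + 2 ≤ q) (L : Fin q → Fin (n + 1) → ℤ)
    (hL : GeneralPosition L) (S : Finset ℕ) (κ : ℝ) (hκ : 0 ≤ κ) (hκq : κ ≤ q) :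
    (∀ c δ : ℝ, 0 < δ → ∃ C : ℝ, ∀ B : ℝ, 1 ≤ B → (Exceptions L S κ c B).Finite ∧
      ((Exceptions L S κ c B).ncard : ℝ) ≤
        C * B ^ (max ((n : ℝ) + 1 - κ) (min (n : ℝ) (q - κ)) + δ)) ∧
    (κ ≤ 1 ∨ (n = 2 ∧ κ ≤ 2) ∨ (q = n + 2 ∧ n ≤ κ) →
      ∃ c₀ : ℝ, ∀ c : ℝ, c₀ ≤ c → ∃ m : ℝ, 0 < m ∧ ∃ B₀ : ℝ, 1 ≤ B₀ ∧ ∀ B : ℝ, B₀ ≤ B →
        m * B ^ max ((n : ℝ) + 1 - κ) (min (n : ℝ) (q - κ)) ≤
          ((Exceptions L S κ c B).ncard : ℝ)) :=
  ⟨fun c _ hδ => Pool.Agent.K4H9.PN.upper_main hn (by omega) hL S hκ hκq c hδ,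
    fun h => Pool.Agent.K4H9.PN.lower_main hn hq hL S hκ hκq h⟩

end Pool.Agent.Results.MP_9ec3f0_nt.HyperplanesSharpExponent
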