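import Mathlib
import Pool.Agent.K4H51.RD.F

set_option autoImplicit false

/-!
# Vojta's inequality with truncated counting function for random divisors

`D = D_1 + ... + D_r` is a divisor of `ℙ^n` over `ℚ` whose components have degrees `d_1, ..., d_r`; it
is given by `r` forms `F_i` with coprime integer coefficients. We count these divisors by the height of
their equations. All but a proportion `C e^(-η T)` of the divisors of height at most `T` satisfy, at
every rational point `P` off `D` of height at most `T`,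

  `N_S^{(1)}(D, P) ≥ (deg D - n - 1 - ε) h(P) + (r - ε) T`,

where `(deg D - n - 1) h = h_{K + D}`. The same holds for the points of any set `X` which has
`O(e^(β T))` points of height at most `T`, with `β` in the place of `n + 1`.
-/

namespace Pool.Agent.Results.MP_9ec3f0_nt.RandomDivisors

open Finset MvPolynomial

/-- the sum of `log p` over the primes `p` outside `S` that divide `a`: for a point `x` with
coprime integer coordinates and forms `F i` with coprime integer coefficients,
`N1 S (∏ i, F i (x))` is the truncated counting function `N_S^{(1)}(D, x)` of the sum `D` of the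
divisors `F i = 0` (every prime is counted once) -/
noncomputable def N1 (S : Finset ℕ) (a : ℤ) : ℝ := ∑ p ∈ a.natAbs.primeFactors \ S, Real.log p

/-- the height `h(x) = log max |x_j|` of a point with coprime integer coordinates -/
noncomputable def h {n : ℕ} (x : Fin (n + 1) → ℤ) : ℝ :=
  Real.log ((univ.sup fun j => (x j).natAbs : ℕ) : ℝ)

/-- the divisors `∑ i, (F i = 0)` of `ℙ^n` over `ℚ`, where `F i` is a form of degree `d i` with
coprime integer coefficients of absolute value at most `e ^ T` -/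
def Divisors (n r : ℕ) (d : Fin r → ℕ) (T : ℝ) : Set (Fin r → MvPolynomial (Fin (n + 1)) ℤ) :=
  {F | ∀ i, (F i).IsHomogeneous (d i) ∧ (F i).support.gcd (fun m => (F i).coeff m) = 1 ∧
    ∀ m, |(((F i).coeff m : ℤ) : ℝ)| ≤ Real.exp T}

/-- the divisors of height at most `T` for which the inequality
`N_S^{(1)}(D, x) ≥ (deg D - β - ε) h(x) + (r - ε) T` fails at some point `x` of `X` off `D` of height
at most `T` -/
def Exceptional (n r : ℕ) (d : Fin r → ℕ) (S : Finset ℕ) (X : Set (Fin (n + 1) → ℤ)) (β ε T : ℝ) :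
    Set (Fin r → MvPolynomial (Fin (n + 1)) ℤ) :=
  {F ∈ Divisors n r d T | ∃ x ∈ X, h x ≤ T ∧ (∀ i, eval x (F i) ≠ 0) ∧
    N1 S (∏ i, eval x (F i)) < ((∑ i, d i : ℕ) - β - ε) * h x + (r - ε) * T}

/-- Let `S` be a finite set of primes, `n ≥ 1`, `d i ≥ 1` and `ε > 0`. There are `η > 0` and `C` such
that for all `T ≥ 0`, all but a proportion `C e^(-η T)` of the divisors `D` of height at most `T` of
`ℙ^n`, with `r` components of degrees `d i`, satisfy
`N_S^{(1)}(D, x) ≥ (deg D - n - 1 - ε) h(x) + (r - ε) T` at all rational points `x` off `D` of height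
at most `T`. More generally this holds for the points `x` of any set `X` of points with at most
`C₀ e^(β T)` points of height at most `T`, with `β` in the place of `n + 1`, uniformly in `X`. -/
theorem result (n r : ℕ) (hn : 1 ≤ n) (d : Fin r → ℕ) (hd : ∀ i, 1 ≤ d i) (S : Finset ℕ) (ε : ℝ)
    (hε : 0 < ε) :
    (∀ T : ℝ, (Divisors n r d T).Finite) ∧
    (∃ η : ℝ, 0 < η ∧ ∃ C : ℝ, ∀ T : ℝ, 0 ≤ T →
      ((Exceptional n r d S {x | univ.gcd x = 1} (n + 1) ε T).ncard : ℝ) ≤
        C * Real.exp (-η * T) * (Divisors n r d T).ncard) ∧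
    (∀ β C₀ : ℝ, 0 ≤ β → 0 ≤ C₀ → ∃ η : ℝ, 0 < η ∧ ∃ C : ℝ, ∀ X : Set (Fin (n + 1) → ℤ),
      (∀ x ∈ X, univ.gcd x = 1) →
      (∀ T : ℝ, 0 ≤ T → ({x ∈ X | h x ≤ T}.ncard : ℝ) ≤ C₀ * Real.exp (β * T)) →
      ∀ T : ℝ, 0 ≤ T →
        ((Exceptional n r d S X β ε T).ncard : ℝ) ≤
          C * Real.exp (-η * T) * (Divisors n r d T).ncard) := by
  refine ⟨fun T => Pool.Agent.K4H51.RD.PForms_finite n r d (Real.exp T) (Real.exp_pos T).le, ?_, ?_⟩
  · obtain ⟨η, hη, C, h1⟩ := Pool.Agent.K4H51.RD.main n r hn d hd S (n + 1) (3 ^ (n + 1))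
      (by positivity) (by positivity) ε hε
    exact ⟨η, hη, C, h1 {x | univ.gcd x = 1} (fun x hx => hx)
      (Pool.Agent.K4H51.RD.all_points n)⟩
  · intro β C₀ hβ hC₀
    obtain ⟨η, hη, C, h1⟩ := Pool.Agent.K4H51.RD.main n r hn d hd S β C₀ hβ hC₀ ε hε
    exact ⟨η, hη, C, h1⟩

end Pool.Agent.Results.MP_9ec3f0_nt.RandomDivisors
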